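import Pool.Agent.WR2.StmtsC

/-!
# Squad WR2, row LVM: level and mean of PS
-/

set_option autoImplicit false

namespace Pool.Agent.WR2.H4

open Pool.Agent.WIR Pool.Agent.WR2
open scoped BigOperators ENNReal

theorem lv_congr {N : ℕ} {f g : ℕ → ℝ} (h : ∀ m, 0 < m → g m = f m) (hf : Lv N f) : Lv N g := by
  intro m hm
  rw [h m hm, h (m + 3 ^ N) (Nat.add_pos_left hm _)]
  exact hf m hm

theorem av_congr {N : ℕ} {f g : ℕ → ℝ} (h : ∀ m, 0 < m → g m = f m) : av N g = av N f := by
  unfold av
  congr 1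
  apply Finset.sum_congr rfl
  intro m hm
  exact h m (Finset.mem_Icc.1 hm).1

theorem lv_add {N : ℕ} {f g : ℕ → ℝ} (hf : Lv N f) (hg : Lv N g) : Lv N (fun m => f m + g m) := by
  intro m hm
  simp only [hf m hm, hg m hm]

theorem av_add {N : ℕ} {f g : ℕ → ℝ} : av N (fun m => f m + g m) = av N f + av N g := by
  unfold av
  rw [Finset.sum_add_distrib, add_div]

theorem lvm (hSTP : StpStmt) (_hAVA : AvaStmt) (hAVC : AvcStmt) : LvmStmt := by
  obtain ⟨hc1, hc2⟩ := hAVC
  intro s
  induction s with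
  | zero =>
    intro l N f hf
    cases l with
    | zero =>
      have h : ∀ m, 0 < m → PS 0 0 f m = f m := by
        intro m hm
        have := (hSTP f m hm).1 0
        simpa using this
      refine ⟨lv_congr h hf, ?_⟩
      rw [Nat.add_zero, av_congr h]
      simp
    | succ l =>
      have h : ∀ m, 0 < m → PS 0 (l + 1) f m = 0 := by
        intro m hm
        have := (hSTP f m hm).1 (l + 1)
        simpa using this
      refine ⟨lv_congr h (fun m _ => rfl), ?_⟩
      rw [av_congr h]
      simp [av]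
  | succ s ih =>
    intro l N f hf
    cases l with
    | zero =>
      have h : ∀ m, 0 < m → PS (s + 1) 0 f m = PS s 0 f (2 * m) := by
        intro m hm
        exact (hSTP f m hm).2.1 s
      obtain ⟨i1, i2⟩ := ih 0 N f hf
      obtain ⟨j1, j2⟩ := hc1 (N + 0) (PS s 0 f) i1
      refine ⟨lv_congr h j1, ?_⟩
      rw [av_congr h, j2, i2]
      simp
    | succ l =>
      have h : ∀ m, 0 < m → PS (s + 1) (l + 1) f m = PS s (l + 1) f (2 * m)
          + (if 3 ∣ 2 * m - 1 then PS s l f ((2 * m - 1) / 3) else 0) := by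
        intro m hm
        exact (hSTP f m hm).2.2 s l
      obtain ⟨i1, i2⟩ := ih (l + 1) N f hf
      obtain ⟨k1, k2⟩ := ih l N f hf
      obtain ⟨j1, j2⟩ := hc1 (N + (l + 1)) (PS s (l + 1) f) i1
      obtain ⟨m1, m2⟩ := hc2 (N + l) (PS s l f) k1
      have e : N + l + 1 = N + (l + 1) := by omega
      rw [e] at m1 m2
      refine ⟨lv_congr h (lv_add j1 m1), ?_⟩
      rw [av_congr h, av_add, j2, i2, m2, k2, Nat.choose_succ_succ]
      push_cast
      field_simp
      ring

end Pool.Agent.WR2.H4
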